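import Pool.Agent.H.MP_b7123c_al.C

set_option autoImplicit false

namespace Pool.Agent.Results.MP_b7123c_al.No

/-- the total order is invariant under multiplication on both sides -/
def BiInv {G : Type} [Group G] (o : LinearOrder G) : Prop :=
  ∀ a b c : G, o.le a b → o.le (c * a) (c * b) ∧ o.le (a * c) (b * c)

/-- convex for at least one bi-invariant total order -/
def RelConvex {G : Type} [Group G] (H : Subgroup G) : Prop :=
  ∃ o : LinearOrder G, BiInv o ∧ ∀ h₁ ∈ H, ∀ h₂ ∈ H, ∀ g, o.le h₁ g → o.le g h₂ → g ∈ H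

open Pool.Agent.H.MP_b7123c_al Pool.Agent.H.MP_afa6c5_al in
theorem result (G : Type) [Group G] (_ : ∃ o : LinearOrder G, BiInv o)
    (h3 : derivedSeries G 3 = ⊥) (h2 : derivedSeries G 2 ≠ ⊥) :
    ¬ ∃! H : Subgroup G, H ≠ ⊥ ∧ H ≠ ⊤ ∧ H.Normal ∧ RelConvex H := by
  rintro ⟨H, ⟨H1, H2, hH, o, ho, hc⟩, uq⟩
  letI := o
  have i1 : MulLeftMono G := ⟨fun c a b h => (ho a b c h).1⟩
  have i2 : MulRightMono G := ⟨fun c a b h => (ho a b c h).2⟩
  refine h2 (Pool.Agent.H.MP_b7123c_al.main H hH (fun g h hh g1 g2 => hc 1 (one_mem _) h hh g g1 g2)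
    H1 H2 ?_ h3)
  rintro N hN ⟨P, hP⟩
  by_cases n1 : N = ⊥
  · exact Or.inl n1
  by_cases n2 : N = ⊤
  · exact Or.inr (Or.inr n2)
  refine Or.inr (Or.inl (uq N ⟨n1, n2, hN, ?_⟩))
  have r := lex (N := ⊥) (P := fun a => a ∈ N ∧ 1 < a) hP bot_le
    (fun a b ha hb => ⟨mul_mem ha.1 hb.1, one_lt_mul'' ha.2 hb.2⟩)
    (fun a h ha => ⟨hN.conj_mem a ha.1 h, by
      simpa using mul_lt_mul_left (mul_lt_mul_right ha.2 h) h⁻¹⟩)
    (fun a ha => by
      rcases lt_trichotomy 1 a with h | h | h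
      · exact Or.inr (Or.inl ⟨ha, h⟩)
      · exact Or.inl h.symm
      · exact Or.inr (Or.inr ⟨inv_mem ha, one_lt_inv'.mpr h⟩))
    (fun a ha h => h.2.ne' ha) fun a h => h.1
  obtain ⟨o', ho', e⟩ := order_of_RC r
  refine ⟨o', ho', fun a ha b hb g g1 g2 => ?_⟩
  rw [e] at g1 g2
  rcases g1 with rfl | g1 | g1
  · exact ha
  · rcases g2 with rfl | g2 | g2
    · exact hb
    · have := hP.mul _ _ g1 g2
      exact absurd (by simpa [mul_assoc] using this) (hP.excl _ (mul_mem (inv_mem ha) hb))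
    · simpa using mul_mem hb (inv_mem g2.1)
  · simpa using mul_mem ha g1.1

end Pool.Agent.Results.MP_b7123c_al.No
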